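import Mathlib

/-!
# Matching mechanisms with ordinal information
-/

set_option autoImplicit false

namespace Q222.MD

/-- A profile with `n` agents and `n` items: `pref a b b'` says that the agent `a` prefers the item
`b` to the item `b'`. Each agent has a strict total order of the items. -/
structure Profile (n : ℕ) where
  pref : Fin n → Fin n → Fin n → Prop
  strict : ∀ a, IsStrictTotalOrder (Fin n) (pref a)

/-- The pseudometric `d` on the agents (`Sum.inl a`) and the items (`Sum.inr b`) is consistent with
the profile: an item which an agent prefers to another one is not farther from this agent. -/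
def Consistent {n : ℕ} (σ : Profile n) (d : PseudoMetricSpace (Fin n ⊕ Fin n)) : Prop :=
  ∀ a b b', σ.pref a b b' → d.dist (Sum.inl a) (Sum.inr b) ≤ d.dist (Sum.inl a) (Sum.inr b')

/-- A deterministic matching mechanism: a perfect matching (agent `a` gets the item `M a`) for each
profile. -/
abbrev Mechanism : Type := ∀ n : ℕ, Profile n → Equiv.Perm (Fin n)

/-- the largest distance between an agent and her item -/
noncomputable def maxCost {n : ℕ} (d : PseudoMetricSpace (Fin n ⊕ Fin n))
    (M : Equiv.Perm (Fin n)) : ℝ := ⨆ a, d.dist (Sum.inl a) (Sum.inr (M a))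

/-- the optimum over all perfect matchings -/
noncomputable def opt {n : ℕ} (d : PseudoMetricSpace (Fin n ⊕ Fin n)) : ℝ :=
  ⨅ M : Equiv.Perm (Fin n), maxCost d M

/-- The max-distortion of the mechanism for `n` agents is at most `α`. -/
def DistLE (f : Mechanism) (n : ℕ) (α : ℝ) : Prop :=
  ∀ (σ : Profile n) (d : PseudoMetricSpace (Fin n ⊕ Fin n)), Consistent σ d →
    maxCost d (f n σ) ≤ α * opt d

end Q222.MD
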