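import Mathlib

/-!
# A function of agents and items on a line which satisfies the four point inequality
-/

set_option autoImplicit false

namespace Q222.MD

/-- the scale at the location `z` -/
def sc (K z : ℕ) : ℕ := min (1 + z / K) K

theorem sc_mono (K : ℕ) {z z' : ℕ} (h : z ≤ z') : sc K z ≤ sc K z' := by
  unfold sc
  have := Nat.div_le_div_right (c := K) h
  omega

theorem sc_pos {K : ℕ} (hK : 1 ≤ K) (z : ℕ) : 1 ≤ sc K z := by
  unfold sc
  have := Nat.zero_le (z / K)
  exact le_min (by omega) hK

theorem sc_le (K z : ℕ) : sc K z ≤ K := by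
  unfold sc
  omega

theorem sc_K {K : ℕ} (hK : 1 ≤ K) (z : ℕ) : sc K (z + K) ≤ sc K z + 1 := by
  unfold sc
  rw [Nat.add_div_right z (by omega)]
  omega

theorem sc_near {K : ℕ} (hK : 1 ≤ K) {z z' : ℕ} (h : z' ≤ z + K) : sc K z' ≤ sc K z + 1 :=
  (sc_mono K h).trans (sc_K hK z)

theorem sc_two {K : ℕ} (hK : 1 ≤ K) (z : ℕ) : sc K (z + 2) ≤ sc K z + 1 := by
  rcases Nat.lt_or_ge 1 K with h | h
  · exact sc_near hK (by omega)
  · have h1 : K = 1 := by omega
    have h2 := sc_le K (z + 2)
    have h3 := sc_pos hK z
    omega

theorem sc_lip {K : ℕ} (hK : 1 ≤ K) (z δ : ℕ) : sc K (z + δ) ≤ sc K z + δ := by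
  induction δ with
  | zero => exact le_rfl
  | succ δ ih =>
    have h1 := sc_mono K (show z + (δ + 1) ≤ z + δ + 2 by omega)
    have h2 := sc_two hK (z + δ)
    omega

theorem sc_lip2 {K : ℕ} (hK : 1 ≤ K) (z δ : ℕ) : sc K (z + (δ + 2)) + 1 ≤ sc K z + (δ + 2) := by
  have h1 := sc_lip hK z δ
  have h2 := sc_two hK (z + δ)
  have h3 : z + (δ + 2) = z + δ + 2 := by omega
  rw [h3]
  omega

/-- distance of locations -/
def dst (x y : ℕ) : ℕ := (x - y) + (y - x)

/-- the distance of the agent at `x` and the item at `y`, or the special item -/
def wl (K x : ℕ) : Option ℕ → ℕ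
  | none => sc K x
  | some y => if dst x y ≤ K then min (dst x y) (sc K x) else max (sc K x) (sc K y)

theorem near_facts {K : ℕ} (hK : 1 ≤ K) (x y : ℕ) (h : dst x y ≤ K) :
    sc K x ≤ sc K y + 1 ∧ sc K y ≤ sc K x + 1 := by
  unfold dst at h
  exact ⟨sc_near hK (by omega), sc_near hK (by omega)⟩

theorem lip_facts {K : ℕ} (hK : 1 ≤ K) (x y : ℕ) : sc K x ≤ sc K y + dst x y := by
  unfold dst
  rcases le_total x y with h | h
  · have := sc_mono K h
    omega
  · obtain ⟨d, rfl⟩ := Nat.exists_eq_add_of_le h
    have := sc_lip hK y d
    omega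

theorem mono_facts (K x y : ℕ) : (x ≤ y ∧ sc K x ≤ sc K y) ∨ (y ≤ x ∧ sc K y ≤ sc K x) := by
  rcases le_total x y with h | h
  · exact Or.inl ⟨h, sc_mono K h⟩
  · exact Or.inr ⟨h, sc_mono K h⟩

theorem wl_quad {K : ℕ} (hK : 1 ≤ K) (x x' : ℕ) (o o' : Option ℕ)
    (hx : ∀ y ∈ o, 1 ≤ dst x y ∧ 1 ≤ dst x' y) (hx' : ∀ y ∈ o', 1 ≤ dst x y ∧ 1 ≤ dst x' y)
    (hoo : ∀ y ∈ o, ∀ y' ∈ o', y = y' ∨ 2 ≤ dst y y') :
    wl K x o ≤ wl K x o' + wl K x' o' + wl K x' o := by
  have p1 := sc_pos hK x
  have p2 := sc_pos hK x'
  cases o with
  | none =>
    cases o' with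
    | none => simp only [wl]; omega
    | some y' =>
      obtain ⟨d1, d2⟩ := hx' y' rfl
      have l1 := lip_facts hK x x'
      have n1 := near_facts hK x y'
      have n2 := near_facts hK x' y'
      have t1 : dst x x' ≤ dst x y' + dst x' y' := by unfold dst; omega
      simp only [wl]
      split_ifs with h1 h2 h2
      · have := n1 h1
        have := n2 h2
        omega
      · have := n1 h1
        omega
      · omega
      · omega
  | some y =>
    obtain ⟨d3, d4⟩ := hx y rfl
    have q1 := sc_le K x
    have q2 := sc_le K y
    cases o' with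
    | none =>
      have n3 := near_facts hK x' y
      have m1 := mono_facts K x y
      simp only [wl]
      split_ifs with h1 h2 h2
      · omega
      · omega
      · have := n3 h2
        omega
      · omega
    | some y' =>
      obtain ⟨d1, d2⟩ := hx' y' rfl
      have n1 := near_facts hK x y'
      have n2 := near_facts hK x' y'
      have n3 := near_facts hK x' y
      have l1 := lip_facts hK x x'
      have l2 := lip_facts hK y y'
      have t1 : dst x x' ≤ dst x y' + dst x' y' := by unfold dst; omega
      have t2 : dst x y ≤ dst x y' + dst x' y' + dst x' y := by unfold dst; omega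
      have t3 : dst y y' ≤ dst x' y + dst x' y' := by unfold dst; omega
      have m1 := mono_facts K x y
      have m2 := mono_facts K y y'
      have l3 : 2 ≤ dst y y' → sc K y + 1 ≤ sc K y' + dst y y' := by
        unfold dst
        intro h
        rcases le_total y y' with h1 | h1
        · have := sc_mono K h1
          omega
        · obtain ⟨d, rfl⟩ := Nat.exists_eq_add_of_le h1
          obtain ⟨e, rfl⟩ : ∃ e, d = e + 2 := ⟨d - 2, by omega⟩
          have := sc_lip2 hK y' e
          omega
      have e1 := hoo y rfl y' rfl
      simp only [wl]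
      by_cases h1 : dst x y' ≤ K
      · have a1 := n1 h1
        by_cases h2 : dst x' y' ≤ K
        · have a2 := n2 h2
          by_cases h3 : dst x' y ≤ K
          · have a3 := n3 h3
            rw [if_pos h1, if_pos h2, if_pos h3]
            split_ifs with h4
            · omega
            · rcases e1 with e1 | e1
              · subst e1; omega
              · have := l3 e1
                omega
          · rw [if_pos h1, if_pos h2, if_neg h3]
            split_ifs with h4
            · omega
            · omega
        · by_cases h3 : dst x' y ≤ K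
          · have a3 := n3 h3
            rw [if_pos h1, if_neg h2, if_pos h3]
            split_ifs with h4
            · omega
            · omega
          · rw [if_pos h1, if_neg h2, if_neg h3]
            split_ifs with h4
            · omega
            · omega
      · by_cases h2 : dst x' y' ≤ K
        · have a2 := n2 h2
          by_cases h3 : dst x' y ≤ K
          · have a3 := n3 h3
            rw [if_neg h1, if_pos h2, if_pos h3]
            split_ifs with h4
            · omega
            · omega
          · rw [if_neg h1, if_pos h2, if_neg h3]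
            split_ifs with h4
            · omega
            · omega
        · by_cases h3 : dst x' y ≤ K
          · have a3 := n3 h3
            rw [if_neg h1, if_neg h2, if_pos h3]
            split_ifs with h4
            · omega
            · omega
          · rw [if_neg h1, if_neg h2, if_neg h3]
            split_ifs with h4
            · omega
            · omega

end Q222.MD
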