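import Mathlib
import Pool.Agent.Q222.MD.Quad
import Pool.Agent.Q222.MD.Defs

/-!
# A profile for which every matching is far from optimal for some consistent pseudometric
-/

set_option autoImplicit false

namespace Q222.MD

section ext

variable {A B : Type} (w : A → B → ℝ)

/-- the distance on the disjoint union -/
noncomputable def dd : A ⊕ B → A ⊕ B → ℝ
  | Sum.inl a, Sum.inl a' => ⨆ b, |w a b - w a' b|
  | Sum.inr b, Sum.inr b' => ⨆ a, |w a b - w a b'|
  | Sum.inl a, Sum.inr b => w a b
  | Sum.inr b, Sum.inl a => w a b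

variable {w}

theorem le_ddA [Finite B] (a a' : A) (b : B) : |w a b - w a' b| ≤ ⨆ b, |w a b - w a' b| :=
  le_ciSup (f := fun b => |w a b - w a' b|) (Set.finite_range _).bddAbove b

theorem le_ddB [Finite A] (b b' : B) (a : A) : |w a b - w a b'| ≤ ⨆ a, |w a b - w a b'| :=
  le_ciSup (f := fun a => |w a b - w a b'|) (Set.finite_range _).bddAbove a

/-- a function with the four point inequality extends to a pseudometric -/
noncomputable abbrev ofQuad [Finite A] [Finite B] [Nonempty A] [Nonempty B]
    (hq : ∀ a b a' b', w a b ≤ w a b' + w a' b' + w a' b) : PseudoMetricSpace (A ⊕ B) where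
  dist := dd w
  dist_self x := by
    rcases x with a | b
    · change ⨆ b, |w a b - w a b| = 0
      simp
    · change ⨆ a, |w a b - w a b| = 0
      simp
  dist_comm x y := by
    rcases x with a | b <;> rcases y with a' | b'
    · change ⨆ b, |w a b - w a' b| = ⨆ b, |w a' b - w a b|
      simp only [abs_sub_comm]
    · rfl
    · rfl
    · change ⨆ a, |w a b - w a b'| = ⨆ a, |w a b' - w a b|
      simp only [abs_sub_comm]
  dist_triangle x y z := by
    rcases x with a | b <;> rcases y with a' | b' <;> rcases z with a'' | b''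
    · change (⨆ b, |w a b - w a'' b|) ≤ (⨆ b, |w a b - w a' b|) + ⨆ b, |w a' b - w a'' b|
      refine ciSup_le fun b => ?_
      exact (abs_sub_le _ (w a' b) _).trans (add_le_add (le_ddA a a' b) (le_ddA a' a'' b))
    · change w a b'' ≤ (⨆ b, |w a b - w a' b|) + w a' b''
      have := le_ddA (w := w) a a' b''
      have := le_abs_self (w a b'' - w a' b'')
      linarith
    · change (⨆ b, |w a b - w a'' b|) ≤ w a b' + w a'' b'
      refine ciSup_le fun b => ?_
      rw [abs_le]
      have h1 := hq a b a'' b'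
      have h2 := hq a'' b a b'
      constructor <;> linarith
    · change w a b'' ≤ w a b' + ⨆ a, |w a b' - w a b''|
      have := le_ddB (w := w) b' b'' a
      have := neg_le_abs (w a b' - w a b'')
      linarith
    · change w a'' b ≤ w a' b + ⨆ b, |w a' b - w a'' b|
      have := le_ddA (w := w) a' a'' b
      have := neg_le_abs (w a' b - w a'' b)
      linarith
    · change (⨆ a, |w a b - w a b''|) ≤ w a' b + w a' b''
      refine ciSup_le fun a => ?_
      rw [abs_le]
      have h1 := hq a b a' b''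
      have h2 := hq a b'' a' b
      constructor <;> linarith
    · change w a'' b ≤ (⨆ a, |w a b - w a b'|) + w a'' b'
      have := le_ddB (w := w) b b' a''
      have := le_abs_self (w a'' b - w a'' b')
      linarith
    · change (⨆ a, |w a b - w a b''|) ≤ (⨆ a, |w a b - w a b'|) + ⨆ a, |w a b' - w a b''|
      refine ciSup_le fun a => ?_
      exact (abs_sub_le _ (w a b') _).trans (add_le_add (le_ddB b b' a) (le_ddB b' b'' a))

end ext

/-- the location of the item with the index `l`; the last index is the special item -/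
def io (m l : ℕ) : Option ℕ := if l < m then some (2 * l + 1) else none

/-- the reflection of the items -/
def ior (m l : ℕ) : Option ℕ := if l < m then some (2 * (m - 1 - l) + 1) else none

/-- the score of an option for the agent at the location `x` -/
def score (K m x : ℕ) : Option ℕ → ℕ
  | none => 2 * K + 2
  | some y => if dst x y ≤ K then 2 * dst x y + (if x < y then 1 else 0) else
      if x ≤ m then 2 * K + 4 + y else 2 * K + 4 + (2 * m - y)

theorem score_spec (K m x y : ℕ) : ∃ s, score K m x (some y) = s ∧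
    ((dst x y ≤ K ∧ ((x < y ∧ s = 2 * dst x y + 1) ∨ (y ≤ x ∧ s = 2 * dst x y))) ∨
      (K < dst x y ∧ ((x ≤ m ∧ s = 2 * K + 4 + y) ∨ (m < x ∧ s = 2 * K + 4 + (2 * m - y))))) := by
  refine ⟨_, rfl, ?_⟩
  change (_ ∧ (_ ∧ (if dst x y ≤ K then 2 * dst x y + (if x < y then 1 else 0) else
      if x ≤ m then 2 * K + 4 + y else 2 * K + 4 + (2 * m - y)) = _ ∨
      _ ∧ (if dst x y ≤ K then 2 * dst x y + (if x < y then 1 else 0) else
      if x ≤ m then 2 * K + 4 + y else 2 * K + 4 + (2 * m - y)) = _)) ∨ (_ ∧ (_ ∧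
      (if dst x y ≤ K then 2 * dst x y + (if x < y then 1 else 0) else
      if x ≤ m then 2 * K + 4 + y else 2 * K + 4 + (2 * m - y)) = _ ∨ _ ∧
      (if dst x y ≤ K then 2 * dst x y + (if x < y then 1 else 0) else
      if x ≤ m then 2 * K + 4 + y else 2 * K + 4 + (2 * m - y)) = _))
  by_cases h1 : dst x y ≤ K
  · left
    rw [if_pos h1]
    by_cases h2 : x < y
    · rw [if_pos h2]
      exact ⟨h1, Or.inl ⟨h2, rfl⟩⟩
    · rw [if_neg h2]
      exact ⟨h1, Or.inr ⟨not_lt.1 h2, rfl⟩⟩
  · right
    rw [if_neg h1]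
    by_cases h2 : x ≤ m
    · rw [if_pos h2]
      exact ⟨not_le.1 h1, Or.inl ⟨h2, rfl⟩⟩
    · rw [if_neg h2]
      exact ⟨not_le.1 h1, Or.inr ⟨not_le.1 h2, rfl⟩⟩

theorem score_inj {K m x l l' : ℕ} (hl : l ≤ m) (hl' : l' ≤ m)
    (h : score K m x (io m l) = score K m x (io m l')) : l = l' := by
  unfold io at h
  obtain ⟨s, hs, hs2⟩ := score_spec K m x (2 * l + 1)
  obtain ⟨s', hs', hs2'⟩ := score_spec K m x (2 * l' + 1)
  have hn : score K m x none = 2 * K + 2 := rfl
  unfold dst at hs2 hs2'
  by_cases h1 : l < m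
  · by_cases h2 : l' < m
    · rw [if_pos h1, if_pos h2, hs, hs'] at h
      omega
    · rw [if_pos h1, if_neg h2, hs, hn] at h
      omega
  · by_cases h2 : l' < m
    · rw [if_neg h1, if_pos h2, hs', hn] at h
      omega
    · omega

theorem sc_top {K z : ℕ} (hK : 1 ≤ K) (hz : K * (K - 1) ≤ z) : sc K z = K := by
  unfold sc
  have : K - 1 ≤ z / K := by
    rw [Nat.le_div_iff_mul_le (by omega)]
    rw [Nat.mul_comm]
    exact hz
  omega

theorem cons_left {K m x : ℕ} (hK : 1 ≤ K) (hm : K * (K - 1) ≤ m) {l l' : ℕ}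
    (h : score K m x (io m l) < score K m x (io m l')) : wl K x (io m l) ≤ wl K x (io m l') := by
  have htop : m < x → sc K x = K := fun h => sc_top hK (by omega)
  have hle := fun z => sc_le K z
  have hmono : ∀ z z', z ≤ z' → sc K z ≤ sc K z' := fun z z' h => sc_mono K h
  unfold io at h ⊢
  split_ifs at h ⊢ with h1 h2 h2
  · have hm' := hmono (2 * l + 1) (2 * l' + 1)
    have hl1 := hle (2 * l + 1)
    have hl2 := hle (2 * l' + 1)
    have hl3 := hle x
    simp only [score, wl] at h ⊢
    split_ifs at h ⊢ <;> omega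
  · simp only [score, wl] at h ⊢
    split_ifs at h ⊢ <;> omega
  · simp only [score, wl] at h ⊢
    split_ifs at h ⊢ <;> omega
  · exact le_rfl

theorem dst_refl_loc {m x l : ℕ} (hx : x ≤ 2 * m) (hl : l < m) :
    dst (2 * m - x) (2 * (m - 1 - l) + 1) = dst x (2 * l + 1) := by
  unfold dst
  omega

theorem cons_right {K m x : ℕ} (hK : 1 ≤ K) (hm : K * (K - 1) ≤ m) (hx : x ≤ 2 * m) {l l' : ℕ}
    (h : score K m x (io m l) < score K m x (io m l')) :
    wl K (2 * m - x) (ior m l) ≤ wl K (2 * m - x) (ior m l') := by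
  have htop : x ≤ m → sc K (2 * m - x) = K := fun h => sc_top hK (by omega)
  have hle := fun z => sc_le K z
  have hmono : ∀ z z', z ≤ z' → sc K z ≤ sc K z' := fun z z' h => sc_mono K h
  unfold io at h
  unfold ior
  split_ifs at h ⊢ with h1 h2 h2
  · have hm' := hmono (2 * (m - 1 - l) + 1) (2 * (m - 1 - l') + 1)
    have hl1 := hle (2 * (m - 1 - l) + 1)
    have hl2 := hle (2 * (m - 1 - l') + 1)
    have hl3 := hle (2 * m - x)
    have e1 := dst_refl_loc hx h1
    have e2 := dst_refl_loc hx h2
    simp only [score, wl, e1, e2] at h ⊢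
    split_ifs at h ⊢ <;> omega
  · have e1 := dst_refl_loc hx h1
    simp only [score, wl, e1] at h ⊢
    split_ifs at h ⊢ <;> omega
  · have e2 := dst_refl_loc hx h2
    simp only [score, wl, e2] at h ⊢
    split_ifs at h ⊢ <;> omega
  · exact le_rfl

section main

variable {n : ℕ}

/-- the profile -/
def prof (K n : ℕ) : Profile n where
  pref a l l' := score K (n - 1) (2 * a.val) (io (n - 1) l.val) <
    score K (n - 1) (2 * a.val) (io (n - 1) l'.val)
  strict a := by
    have hinj : Function.Injective fun l : Fin n =>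
        score K (n - 1) (2 * a.val) (io (n - 1) l.val) := fun l l' h =>
      Fin.ext (score_inj (by omega) (by omega) h)
    exact (RelEmbedding.preimage ⟨_, hinj⟩ (fun a b : ℕ => a < b)).isStrictTotalOrder

theorem io_dst (m k l : ℕ) : ∀ y ∈ io m l, 1 ≤ dst (2 * k) y := by
  intro y hy
  unfold io at hy
  split_ifs at hy with h
  · have : 2 * l + 1 = y := Option.some.inj hy
    unfold dst
    omega
  · exact absurd hy (by simp)

theorem ior_dst (m k l : ℕ) : ∀ y ∈ ior m l, 1 ≤ dst (2 * k) y := by
  intro y hy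
  unfold ior at hy
  split_ifs at hy with h
  · have : 2 * (m - 1 - l) + 1 = y := Option.some.inj hy
    unfold dst
    omega
  · exact absurd hy (by simp)

theorem io_two (m l l' : ℕ) : ∀ y ∈ io m l, ∀ y' ∈ io m l', y = y' ∨ 2 ≤ dst y y' := by
  intro y hy y' hy'
  unfold io at hy hy'
  split_ifs at hy hy' with h h' h'
  · have : 2 * l + 1 = y := Option.some.inj hy
    have : 2 * l' + 1 = y' := Option.some.inj hy'
    unfold dst
    omega
  · exact absurd hy' (by simp)
  · exact absurd hy (by simp)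
  · exact absurd hy (by simp)

theorem ior_two (m l l' : ℕ) : ∀ y ∈ ior m l, ∀ y' ∈ ior m l', y = y' ∨ 2 ≤ dst y y' := by
  intro y hy y' hy'
  unfold ior at hy hy'
  split_ifs at hy hy' with h h' h'
  · have : 2 * (m - 1 - l) + 1 = y := Option.some.inj hy
    have : 2 * (m - 1 - l') + 1 = y' := Option.some.inj hy'
    unfold dst
    omega
  · exact absurd hy' (by simp)
  · exact absurd hy (by simp)
  · exact absurd hy (by simp)

/-- the two functions -/
def wL (K n : ℕ) (a l : Fin n) : ℝ := (wl K (2 * a.val) (io (n - 1) l.val) : ℕ)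

def wR (K n : ℕ) (a l : Fin n) : ℝ := (wl K (2 * (n - 1) - 2 * a.val) (ior (n - 1) l.val) : ℕ)

theorem wL_quad {K : ℕ} (hK : 1 ≤ K) (a b a' b' : Fin n) :
    wL K n a b ≤ wL K n a b' + wL K n a' b' + wL K n a' b := by
  unfold wL
  exact_mod_cast wl_quad hK (2 * a.val) (2 * a'.val) (io (n - 1) b.val) (io (n - 1) b'.val)
    (fun y hy => ⟨io_dst _ _ _ y hy, io_dst _ _ _ y hy⟩)
    (fun y hy => ⟨io_dst _ _ _ y hy, io_dst _ _ _ y hy⟩) (io_two _ _ _)

theorem wR_quad {K : ℕ} (hK : 1 ≤ K) (a b a' b' : Fin n) :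
    wR K n a b ≤ wR K n a b' + wR K n a' b' + wR K n a' b := by
  unfold wR
  have e : ∀ a : Fin n, 2 * (n - 1) - 2 * a.val = 2 * (n - 1 - a.val) := fun a => by omega
  rw [e a, e a']
  exact_mod_cast wl_quad hK (2 * (n - 1 - a.val)) (2 * (n - 1 - a'.val)) (ior (n - 1) b.val)
    (ior (n - 1) b'.val)
    (fun y hy => ⟨ior_dst _ _ _ y hy, ior_dst _ _ _ y hy⟩)
    (fun y hy => ⟨ior_dst _ _ _ y hy, ior_dst _ _ _ y hy⟩) (ior_two _ _ _)

theorem cost_nonneg (d : PseudoMetricSpace (Fin n ⊕ Fin n)) (M : Equiv.Perm (Fin n)) :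
    0 ≤ maxCost d M :=
  Real.iSup_nonneg fun a => @dist_nonneg _ d _ _

theorem le_cost (d : PseudoMetricSpace (Fin n ⊕ Fin n)) (M : Equiv.Perm (Fin n)) (a : Fin n) :
    d.dist (Sum.inl a) (Sum.inr (M a)) ≤ maxCost d M :=
  le_ciSup (f := fun a => d.dist (Sum.inl a) (Sum.inr (M a))) (Set.finite_range _).bddAbove a

theorem opt_le (d : PseudoMetricSpace (Fin n ⊕ Fin n)) (M : Equiv.Perm (Fin n)) :
    opt d ≤ maxCost d M :=
  ciInf_le (f := fun M => maxCost d M) (Set.finite_range _).bddBelow M

theorem opt_nonneg (d : PseudoMetricSpace (Fin n ⊕ Fin n)) : 0 ≤ opt d :=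
  Real.iInf_nonneg fun M => cost_nonneg d M

/-- from one bad pair -/
theorem le_of_bad {f : Mechanism} {α : ℝ} (h : DistLE f n α) {σ : Profile n}
    {d : PseudoMetricSpace (Fin n ⊕ Fin n)} (hc : Consistent σ d) {K : ℝ} (hK : 0 < K)
    (M : Equiv.Perm (Fin n)) (hM : ∀ a, d.dist (Sum.inl a) (Sum.inr (M a)) ≤ 1) (hn : 0 < n)
    {a : Fin n} (ha : K ≤ d.dist (Sum.inl a) (Sum.inr (f n σ a))) : K ≤ α := by
  have : Nonempty (Fin n) := ⟨⟨0, hn⟩⟩
  have h1 : opt d ≤ 1 := (opt_le d M).trans (ciSup_le hM)
  have h2 := h σ d hc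
  have h3 := ha.trans ((le_cost d (f n σ) a).trans h2)
  have h4 := opt_nonneg d
  by_cases h5 : 0 ≤ α
  · nlinarith
  · push Not at h5
    nlinarith

theorem lower_bound (f : Mechanism) {n : ℕ} (hn : 1 ≤ n) {α : ℝ} (h : DistLE f n α) :
    (Nat.sqrt n : ℝ) ≤ α := by
  obtain ⟨K, hKdef⟩ : ∃ K, K = Nat.sqrt n := ⟨_, rfl⟩
  rw [← hKdef]
  have hK : 1 ≤ K := by
    rw [hKdef, Nat.le_sqrt]
    omega
  have hKn : K * K ≤ n := by rw [hKdef]; exact Nat.sqrt_le n
  have hm : K * (K - 1) ≤ n - 1 := by
    have : K * (K - 1) + K = K * K := by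
      obtain ⟨j, rfl⟩ := Nat.exists_eq_add_of_le hK
      rw [Nat.add_sub_cancel_left]
      ring
    omega
  have : Nonempty (Fin n) := ⟨⟨0, hn⟩⟩
  have hKr : (0 : ℝ) < K := by exact_mod_cast hK
  -- the agent who gets the last item
  obtain ⟨a, ha⟩ : ∃ a, f n (prof K n) a = ⟨n - 1, by omega⟩ := (f n (prof K n)).surjective _
  by_cases hside : n - 1 ≤ 2 * a.val
  · refine le_of_bad h (σ := prof K n)
      (d := ofQuad (w := wL K n) (fun a b a' b' => wL_quad hK a b a' b')) ?_ hKr (finRotate n).symm ?_ (by omega) (a := a) ?_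
    · intro a b b' hb
      change wL K n a b ≤ wL K n a b'
      unfold wL
      exact_mod_cast cons_left hK hm hb
    · intro a
      change wL K n a ((finRotate n).symm a) ≤ 1
      unfold wL
      have hv : ∃ b : Fin n, (finRotate n).symm a = b := ⟨_, rfl⟩
      obtain ⟨b, hb⟩ := hv
      rw [hb]
      have hab : a = finRotate n b := by rw [← hb, Equiv.apply_symm_apply]
      obtain ⟨n', rfl⟩ : ∃ n', n = n' + 1 := ⟨n - 1, by omega⟩
      have hval : a.val = if b.val = n' then 0 else b.val + 1 := by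
        rw [hab]
        by_cases hb' : b = Fin.last n'
        · rw [hb', finRotate_last]
          simp
        · have hb2 : ¬ b.val = n' := fun h => hb' (Fin.ext h)
          rw [if_neg hb2]
          exact coe_finRotate_of_ne_last hb'
      have : wl K (2 * a.val) (io (n' + 1 - 1) b.val) ≤ 1 := by
        rw [hval]
        unfold io
        by_cases hb' : b.val = n'
        · have hb2 : ¬ b.val < n' + 1 - 1 := by omega
          rw [if_pos hb', if_neg hb2]
          change sc K (2 * 0) ≤ 1
          unfold sc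
          rw [Nat.mul_zero, Nat.zero_div]
          omega
        · have hb2 : b.val < n' + 1 - 1 := by omega
          rw [if_neg hb', if_pos hb2]
          have e1 : dst (2 * (b.val + 1)) (2 * b.val + 1) = 1 := by unfold dst; omega
          change (if dst (2 * (b.val + 1)) (2 * b.val + 1) ≤ K then
            min (dst (2 * (b.val + 1)) (2 * b.val + 1)) (sc K (2 * (b.val + 1))) else _) ≤ 1
          rw [e1, if_pos hK]
          exact min_le_left _ _
      exact_mod_cast this
    · change (K : ℝ) ≤ wL K n a (f n (prof K n) a)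
      rw [ha]
      unfold wL io
      rw [if_neg (by simp)]
      change (K : ℝ) ≤ ((sc K (2 * a.val) : ℕ) : ℝ)
      rw [sc_top hK (hm.trans hside)]
  · refine le_of_bad h (σ := prof K n)
      (d := ofQuad (w := wR K n) (fun a b a' b' => wR_quad hK a b a' b')) ?_ hKr (Equiv.refl _) ?_ (by omega) (a := a) ?_
    · intro a b b' hb
      change wR K n a b ≤ wR K n a b'
      unfold wR
      exact_mod_cast cons_right hK hm (by omega) hb
    · intro a
      change wR K n a a ≤ 1
      unfold wR
      have : wl K (2 * (n - 1) - 2 * a.val) (ior (n - 1) a.val) ≤ 1 := by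
        unfold ior
        by_cases hb' : a.val < n - 1
        · rw [if_pos hb']
          have e1 : dst (2 * (n - 1) - 2 * a.val) (2 * (n - 1 - 1 - a.val) + 1) = 1 := by
            unfold dst; omega
          change (if dst (2 * (n - 1) - 2 * a.val) (2 * (n - 1 - 1 - a.val) + 1) ≤ K then
            min (dst (2 * (n - 1) - 2 * a.val) (2 * (n - 1 - 1 - a.val) + 1)) _ else _) ≤ 1
          rw [e1, if_pos hK]
          exact min_le_left _ _
        · rw [if_neg hb']
          have e : 2 * (n - 1) - 2 * a.val = 0 := by omega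
          rw [e]
          change sc K 0 ≤ 1
          unfold sc
          rw [Nat.zero_div]
          omega
      exact_mod_cast this
    · change (K : ℝ) ≤ wR K n a (f n (prof K n) a)
      rw [ha]
      unfold wR ior
      rw [if_neg (by simp)]
      change (K : ℝ) ≤ ((sc K (2 * (n - 1) - 2 * a.val) : ℕ) : ℝ)
      rw [sc_top hK (hm.trans (by omega))]

end main

end Q222.MD
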